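import Mathlib

/-!
# MP_78a685 (full Q1), section 4: rigidity of triples

Two positively oriented triangles `x`, `x'` and the pairs `(y, y')` with `|x_k - y| = |x'_k - y'|`.
-/

set_option autoImplicit false

namespace Pool.Agent.H82.LD

/-- the cross product -/
def cr (a b : ℂ) : ℝ := a.re * b.im - a.im * b.re

/-- a real polynomial of degree at most two on the plane -/
structure Quad where
  /-- coefficient of `re ^ 2` -/
  A : ℝ
  /-- half the coefficient of `re * im` -/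
  B : ℝ
  /-- coefficient of `im ^ 2` -/
  C : ℝ
  /-- half the coefficient of `re` -/
  D : ℝ
  /-- half the coefficient of `im` -/
  E : ℝ
  /-- constant coefficient -/
  F : ℝ

/-- the value of the polynomial -/
def Quad.ev (p : Quad) (z : ℂ) : ℝ :=
  p.A * z.re ^ 2 + 2 * p.B * (z.re * z.im) + p.C * z.im ^ 2 + 2 * p.D * z.re + 2 * p.E * z.im + p.F

/-- the quadratic part is not zero -/
def Quad.nd (p : Quad) : Prop := ¬ (p.A = 0 ∧ p.B = 0 ∧ p.C = 0)

/-- no three of the five points are collinear -/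
def NoCol (y : Fin 5 → ℂ) : Prop :=
  ∀ i j k, i ≠ j → i ≠ k → j ≠ k → cr (y j - y i) (y k - y i) ≠ 0

/-- a linear system with nonzero determinant -/
lemma cramer {a b c d m n : ℝ} (h : a * d - b * c ≠ 0) (h1 : m * a + n * b = 0)
    (h2 : m * c + n * d = 0) : m = 0 ∧ n = 0 := by
  constructor
  · have h3 : m * (a * d - b * c) = 0 := by linear_combination d * h1 - b * h2
    exact (mul_eq_zero.1 h3).resolve_right h
  · have h3 : n * (a * d - b * c) = 0 := by linear_combination a * h2 - c * h1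
    exact (mul_eq_zero.1 h3).resolve_right h

/-- factorisation of the quadratic part -/
lemma factorQ {A B C α β : ℝ} (h : A * α ^ 2 + 2 * B * (α * β) + C * β ^ 2 = 0)
    (hne : ¬ (α = 0 ∧ β = 0)) :
    ∃ m n : ℝ, A = -β * m ∧ 2 * B = α * m - β * n ∧ C = α * n := by
  by_cases hα : α = 0
  · have hβ : β ≠ 0 := fun hβ => hne ⟨hα, hβ⟩
    have hC : C = 0 := by
      rw [hα] at h
      have h2 : C * β ^ 2 = 0 := by linear_combination h
      exact (mul_eq_zero.1 h2).resolve_right (pow_ne_zero 2 hβ)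
    refine ⟨-A / β, -2 * B / β, ?_, ?_, ?_⟩
    · field_simp
    · rw [hα]
      field_simp
      ring
    · rw [hα, hC]
      ring
  · refine ⟨(2 * B + β * (C / α)) / α, C / α, ?_, ?_, ?_⟩
    · field_simp
      linear_combination h
    · field_simp
      ring
    · field_simp

/-- factorisation of a linear form -/
lemma factorL {g1 g2 α β : ℝ} (h : g1 * α + g2 * β = 0) (hne : ¬ (α = 0 ∧ β = 0)) :
    ∃ k : ℝ, g1 = -β * k ∧ g2 = α * k := by
  by_cases hα : α = 0
  · have hβ : β ≠ 0 := fun hβ => hne ⟨hα, hβ⟩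
    have hg : g2 = 0 := by
      rw [hα] at h
      have h2 : g2 * β = 0 := by linear_combination h
      exact (mul_eq_zero.1 h2).resolve_right hβ
    refine ⟨-g1 / β, ?_, ?_⟩
    · field_simp
    · rw [hα, hg]
      ring
  · refine ⟨g2 / α, ?_, ?_⟩
    · field_simp
      linear_combination h
    · field_simp

/-- A polynomial of degree two which vanishes on a line and at three points outside of it which are
not collinear is zero. -/
lemma line_three (p : Quad) (w e : ℂ) (he : ¬ (e.re = 0 ∧ e.im = 0))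
    (hQ : p.A * e.re ^ 2 + 2 * p.B * (e.re * e.im) + p.C * e.im ^ 2 = 0)
    (hL : (p.A * w.re + p.B * w.im + p.D) * e.re + (p.B * w.re + p.C * w.im + p.E) * e.im = 0)
    (h0 : p.ev w = 0) (y0 y1 y2 : ℂ) (o0 : cr e (y0 - w) ≠ 0) (o1 : cr e (y1 - w) ≠ 0)
    (o2 : cr e (y2 - w) ≠ 0) (hn : cr (y1 - y0) (y2 - y0) ≠ 0) (v0 : p.ev y0 = 0)
    (v1 : p.ev y1 = 0) (v2 : p.ev y2 = 0) :
    p.A = 0 ∧ p.B = 0 ∧ p.C = 0 ∧ p.D = 0 ∧ p.E = 0 ∧ p.F = 0 := by
  obtain ⟨m, n, hA, hB, hC⟩ := factorQ hQ he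
  obtain ⟨k, hg1, hg2⟩ := factorL hL he
  have key : ∀ z : ℂ, p.ev z = 0 → cr e (z - w) ≠ 0 →
      m * (z.re - w.re) + n * (z.im - w.im) + 2 * k = 0 := by
    intro z hz ho
    have h1 : cr e (z - w) * (m * (z.re - w.re) + n * (z.im - w.im) + 2 * k) = 0 := by
      unfold Quad.ev at hz h0
      unfold cr
      simp only [Complex.sub_re, Complex.sub_im]
      linear_combination hz - h0 - (z.re - w.re) ^ 2 * hA - (z.re - w.re) * (z.im - w.im) * hB
        - (z.im - w.im) ^ 2 * hC - 2 * (z.re - w.re) * hg1 - 2 * (z.im - w.im) * hg2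
    exact (mul_eq_zero.1 h1).resolve_left ho
  have k0 := key y0 v0 o0
  have k1 := key y1 v1 o1
  have k2 := key y2 v2 o2
  unfold cr at hn
  simp only [Complex.sub_re, Complex.sub_im] at hn
  obtain ⟨hm, hn'⟩ := cramer hn (m := m) (n := n) (by linear_combination k1 - k0)
    (by linear_combination k2 - k0)
  have hk : k = 0 := by
    rw [hm, hn'] at k0
    linarith
  have a0 : p.A = 0 := by rw [hA, hm]; ring
  have b0 : p.B = 0 := by
    rw [hm, hn'] at hB
    linarith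
  have c0 : p.C = 0 := by rw [hC, hn']; ring
  have d0 : p.D = 0 := by
    rw [a0, b0, hk] at hg1
    linarith
  have e0 : p.E = 0 := by
    rw [b0, c0, hk] at hg2
    linarith
  refine ⟨a0, b0, c0, d0, e0, ?_⟩
  unfold Quad.ev at h0
  rw [a0, b0, c0, d0, e0] at h0
  linarith

/-- A polynomial of degree two which vanishes on a line and at five points, no three collinear, is
zero. -/
lemma line_five (p : Quad) (w e : ℂ) (he : ¬ (e.re = 0 ∧ e.im = 0))
    (hQ : p.A * e.re ^ 2 + 2 * p.B * (e.re * e.im) + p.C * e.im ^ 2 = 0)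
    (hL : (p.A * w.re + p.B * w.im + p.D) * e.re + (p.B * w.re + p.C * w.im + p.E) * e.im = 0)
    (h0 : p.ev w = 0) (y : Fin 5 → ℂ) (hy : NoCol y) (hv : ∀ i, p.ev (y i) = 0) :
    p.A = 0 ∧ p.B = 0 ∧ p.C = 0 ∧ p.D = 0 ∧ p.E = 0 ∧ p.F = 0 := by
  classical
  set S : Finset (Fin 5) := Finset.univ.filter (fun i => cr e (y i - w) = 0) with hS
  have hS2 : S.card ≤ 2 := by
    by_contra hcon
    obtain ⟨i, hi, j, hj, k, hk, hij, hik, hjk⟩ := Finset.two_lt_card.1 (not_le.1 hcon)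
    have h1 := (Finset.mem_filter.1 hi).2
    have h2 := (Finset.mem_filter.1 hj).2
    have h3 := (Finset.mem_filter.1 hk).2
    apply hy i j k hij hik hjk
    unfold cr at h1 h2 h3 ⊢
    simp only [Complex.sub_re, Complex.sub_im] at h1 h2 h3 ⊢
    set u1 := (y j).re - (y i).re with hu1
    set u2 := (y j).im - (y i).im with hu2
    set v1 := (y k).re - (y i).re with hv1
    set v2 := (y k).im - (y i).im with hv2
    have e1 : e.re * u2 - e.im * u1 = 0 := by rw [hu1, hu2]; linear_combination h2 - h1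
    have e2 : e.re * v2 - e.im * v1 = 0 := by rw [hv1, hv2]; linear_combination h3 - h1
    by_contra hne
    apply he
    have h4 := cramer (a := -u2) (b := u1) (c := -v2) (d := v1) (m := e.re) (n := e.im) (by
      intro h5
      apply hne
      linear_combination h5) (by linear_combination -e1) (by linear_combination -e2)
    exact h4
  have hT : 2 < (Finset.univ \ S).card := by
    rw [Finset.card_sdiff_of_subset (Finset.subset_univ _), Finset.card_univ, Fintype.card_fin]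
    omega
  obtain ⟨i, hi, j, hj, k, hk, hij, hik, hjk⟩ := Finset.two_lt_card.1 hT
  have off : ∀ i ∈ Finset.univ \ S, cr e (y i - w) ≠ 0 := by
    intro i hi h
    exact (Finset.mem_sdiff.1 hi).2 (Finset.mem_filter.2 ⟨Finset.mem_univ _, h⟩)
  exact line_three p w e he hQ hL h0 (y i) (y j) (y k) (off i hi) (off j hj) (off k hk)
    (hy i j k hij hik hjk) (hv i) (hv j) (hv k)

/-- Two quadratic polynomials which vanish at five points, no three collinear, are proportional. -/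
lemma quad_prop (p q : Quad) (hp : p.nd) (y : Fin 5 → ℂ) (hy : NoCol y)
    (hpv : ∀ i, p.ev (y i) = 0) (hqv : ∀ i, q.ev (y i) = 0) :
    ∃ l : ℝ, q.A = l * p.A ∧ q.B = l * p.B ∧ q.C = l * p.C ∧ q.D = l * p.D ∧ q.E = l * p.E ∧
      q.F = l * p.F := by
  set w := y 0 with hw
  set e := y 1 - y 0 with he
  have hene : ¬ (e.re = 0 ∧ e.im = 0) := by
    rintro ⟨h1, h2⟩
    apply hy 0 1 2 (by decide) (by decide) (by decide)
    rw [← he]
    unfold cr
    rw [h1, h2]
    ring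
  have hwe : w + e = y 1 := by rw [hw, he]; ring
  -- on the line
  have hline : ∀ r : Quad, r.ev w = 0 → r.ev (w + e) = 0 → r.ev (w + 2 * e) = 0 →
      r.A * e.re ^ 2 + 2 * r.B * (e.re * e.im) + r.C * e.im ^ 2 = 0 ∧
      (r.A * w.re + r.B * w.im + r.D) * e.re + (r.B * w.re + r.C * w.im + r.E) * e.im = 0 := by
    intro r h0 h1 h2
    unfold Quad.ev at h0 h1 h2
    have e1 : (w + 2 * e).re = w.re + 2 * e.re := by simp
    have e2 : (w + 2 * e).im = w.im + 2 * e.im := by simp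
    rw [e1, e2] at h2
    simp only [Complex.add_re, Complex.add_im] at h1
    constructor
    · linear_combination (h2 - 2 * h1 + h0) / 2
    · linear_combination (4 * h1 - h2 - 3 * h0) / 4
  have hpz : p.ev (w + 2 * e) ≠ 0 := by
    intro h
    obtain ⟨hQ, hL⟩ := hline p (hpv 0) (by rw [hwe]; exact hpv 1) h
    obtain ⟨h1, h2, h3, -⟩ := line_five p w e hene hQ hL (hpv 0) y hy hpv
    exact hp ⟨h1, h2, h3⟩
  set l := q.ev (w + 2 * e) / p.ev (w + 2 * e) with hl
  have hlz : q.ev (w + 2 * e) - l * p.ev (w + 2 * e) = 0 := by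
    rw [hl, div_mul_cancel₀ _ hpz, sub_self]
  set r : Quad := ⟨q.A - l * p.A, q.B - l * p.B, q.C - l * p.C, q.D - l * p.D, q.E - l * p.E,
    q.F - l * p.F⟩ with hr
  have hrev : ∀ z, r.ev z = q.ev z - l * p.ev z := by
    intro z
    rw [hr]
    unfold Quad.ev
    ring
  have hrv : ∀ i, r.ev (y i) = 0 := by
    intro i
    rw [hrev, hpv, hqv]
    ring
  obtain ⟨hQ, hL⟩ := hline r (hrv 0) (by rw [hwe]; exact hrv 1) (by rw [hrev]; exact hlz)
  obtain ⟨h1, h2, h3, h4, h5, h6⟩ := line_five r w e hene hQ hL (hrv 0) y hy hrv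
  exact ⟨l, sub_eq_zero.1 h1, sub_eq_zero.1 h2, sub_eq_zero.1 h3, sub_eq_zero.1 h4,
    sub_eq_zero.1 h5, sub_eq_zero.1 h6⟩

/-- the determinant of the conic -/
def Quad.det (p : Quad) : ℝ :=
  p.A * (p.C * p.F - p.E ^ 2) - p.B * (p.B * p.F - p.E * p.D) + p.D * (p.B * p.E - p.C * p.D)

/-- A conic with five points, no three collinear, is not degenerate. -/
lemma quad_det (p : Quad) (hp : p.nd) (y : Fin 5 → ℂ) (hy : NoCol y)
    (hpv : ∀ i, p.ev (y i) = 0) : p.det ≠ 0 := by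
  intro hdet
  have hM : (!![p.A, p.B, p.D; p.B, p.C, p.E; p.D, p.E, p.F] : Matrix (Fin 3) (Fin 3) ℝ).det = 0 := by
    rw [Matrix.det_fin_three]
    simp only [Matrix.of_apply, Matrix.cons_val', Matrix.cons_val_zero, Matrix.cons_val_one,
      Matrix.cons_val, Matrix.cons_val_fin_one]
    unfold Quad.det at hdet
    linear_combination hdet
  obtain ⟨v, hv0, hv⟩ := Matrix.exists_mulVec_eq_zero_iff.2 hM
  have e0 : p.A * v 0 + p.B * v 1 + p.D * v 2 = 0 := by
    have := congrFun hv 0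
    simpa [Matrix.mulVec, dotProduct, Fin.sum_univ_three] using this
  have e1 : p.B * v 0 + p.C * v 1 + p.E * v 2 = 0 := by
    have := congrFun hv 1
    simpa [Matrix.mulVec, dotProduct, Fin.sum_univ_three] using this
  have e2 : p.D * v 0 + p.E * v 1 + p.F * v 2 = 0 := by
    have := congrFun hv 2
    simpa [Matrix.mulVec, dotProduct, Fin.sum_univ_three] using this
  by_cases h2 : v 2 = 0
  · -- constant in the direction (v 0, v 1)
    have hne : ¬ ((⟨v 0, v 1⟩ : ℂ).re = 0 ∧ (⟨v 0, v 1⟩ : ℂ).im = 0) := by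
      rintro ⟨h0, h1⟩
      apply hv0
      ext i
      fin_cases i
      · exact h0
      · exact h1
      · exact h2
    rw [h2] at e0 e1 e2
    obtain ⟨h3, h4, h5, -⟩ := line_five p (y 0) ⟨v 0, v 1⟩ hne (by
        change p.A * v 0 ^ 2 + 2 * p.B * (v 0 * v 1) + p.C * v 1 ^ 2 = 0
        linear_combination v 0 * e0 + v 1 * e1) (by
        change (p.A * (y 0).re + p.B * (y 0).im + p.D) * v 0 +
          (p.B * (y 0).re + p.C * (y 0).im + p.E) * v 1 = 0
        linear_combination (y 0).re * e0 + (y 0).im * e1 + e2) (hpv 0) y hy hpv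
    exact hp ⟨h3, h4, h5⟩
  · -- the singular point
    set z : ℂ := ⟨v 0 / v 2, v 1 / v 2⟩ with hz
    have g0 : p.A * z.re + p.B * z.im + p.D = 0 := by
      rw [hz]
      change p.A * (v 0 / v 2) + p.B * (v 1 / v 2) + p.D = 0
      field_simp
      linear_combination e0
    have g1 : p.B * z.re + p.C * z.im + p.E = 0 := by
      rw [hz]
      change p.B * (v 0 / v 2) + p.C * (v 1 / v 2) + p.E = 0
      field_simp
      linear_combination e1
    have g2 : p.D * z.re + p.E * z.im + p.F = 0 := by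
      rw [hz]
      change p.D * (v 0 / v 2) + p.E * (v 1 / v 2) + p.F = 0
      field_simp
      linear_combination e2
    have hz0 : p.ev z = 0 := by
      unfold Quad.ev
      linear_combination z.re * g0 + z.im * g1 + g2
    obtain ⟨i, hi⟩ : ∃ i, y i ≠ z := by
      by_contra hcon
      push Not at hcon
      apply hy 0 1 2 (by decide) (by decide) (by decide)
      rw [hcon 0, hcon 1, hcon 2]
      unfold cr
      simp
    have hne : ¬ ((y i - z).re = 0 ∧ (y i - z).im = 0) := by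
      rintro ⟨h0, h1⟩
      exact hi (sub_eq_zero.1 (Complex.ext h0 h1))
    obtain ⟨h3, h4, h5, -⟩ := line_five p z (y i - z) hne (by
        have h6 := hpv i
        unfold Quad.ev at h6
        simp only [Complex.sub_re, Complex.sub_im]
        linear_combination h6 + (z.re - 2 * (y i).re) * g0 + (z.im - 2 * (y i).im) * g1 - g2) (by
        rw [g0, g1]
        ring) hz0 y hy hpv
    exact hp ⟨h3, h4, h5⟩

/-- an affine map of the plane -/
structure Aff where
  /-- matrix entry -/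
  a : ℝ
  /-- matrix entry -/
  b : ℝ
  /-- matrix entry -/
  c : ℝ
  /-- matrix entry -/
  d : ℝ
  /-- translation part -/
  e : ℝ
  /-- translation part -/
  f : ℝ

/-- the value of the affine map -/
def Aff.ap (T : Aff) (z : ℂ) : ℂ := ⟨T.a * z.re + T.b * z.im + T.e, T.c * z.re + T.d * z.im + T.f⟩

/-- the polynomial `p ∘ T` -/
def Quad.comp (p : Quad) (T : Aff) : Quad :=
  ⟨p.A * T.a ^ 2 + 2 * p.B * T.a * T.c + p.C * T.c ^ 2,
   p.A * T.a * T.b + p.B * (T.a * T.d + T.b * T.c) + p.C * T.c * T.d,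
   p.A * T.b ^ 2 + 2 * p.B * T.b * T.d + p.C * T.d ^ 2,
   T.a * (p.A * T.e + p.B * T.f + p.D) + T.c * (p.B * T.e + p.C * T.f + p.E),
   T.b * (p.A * T.e + p.B * T.f + p.D) + T.d * (p.B * T.e + p.C * T.f + p.E),
   p.A * T.e ^ 2 + 2 * p.B * T.e * T.f + p.C * T.f ^ 2 + 2 * p.D * T.e + 2 * p.E * T.f + p.F⟩

lemma comp_ev (p : Quad) (T : Aff) (z : ℂ) : (p.comp T).ev z = p.ev (T.ap z) := by
  unfold Quad.ev Quad.comp Aff.ap
  ring

lemma comp_det (p : Quad) (T : Aff) :
    (p.comp T).det = (T.a * T.d - T.b * T.c) ^ 2 * p.det := by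
  unfold Quad.det Quad.comp
  ring

/-- the algebraic core -/
lemma core (p : Quad) (T : Aff) (m l : ℝ) (hp : p.nd) (hdet : p.det ≠ 0)
    (hT : 0 < T.a * T.d - T.b * T.c)
    (hA : (p.comp T).A = m * p.A) (hB : (p.comp T).B = m * p.B) (hC : (p.comp T).C = m * p.C)
    (hD : (p.comp T).D = m * p.D) (hE : (p.comp T).E = m * p.E) (hF : (p.comp T).F = m * p.F)
    (lA : 1 - (T.a ^ 2 + T.c ^ 2) = l * p.A) (lB : -(T.a * T.b + T.c * T.d) = l * p.B)
    (lC : 1 - (T.b ^ 2 + T.d ^ 2) = l * p.C) : l = 0 := by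
  set δ := T.a * T.d - T.b * T.c with hδ
  have h1 : δ ^ 2 = m ^ 3 := by
    have h := comp_det p T
    rw [← hδ] at h
    have h' : (p.comp T).det = m ^ 3 * p.det := by
      unfold Quad.det
      rw [hA, hB, hC, hD, hE, hF]
      ring
    rw [h'] at h
    exact (mul_right_cancel₀ hdet h).symm
  have h2 : δ ^ 2 * (p.A * p.C - p.B ^ 2) = m ^ 2 * (p.A * p.C - p.B ^ 2) := by
    have h3 : δ ^ 2 * (p.A * p.C - p.B ^ 2) =
        (p.comp T).A * (p.comp T).C - (p.comp T).B ^ 2 := by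
      rw [hδ]
      unfold Quad.comp
      ring
    rw [h3, hA, hB, hC]
    ring
  have eA : T.a ^ 2 + T.c ^ 2 = 1 - l * p.A := by linear_combination -lA
  have eB : T.a * T.b + T.c * T.d = -(l * p.B) := by linear_combination -lB
  have eC : T.b ^ 2 + T.d ^ 2 = 1 - l * p.C := by linear_combination -lC
  have h3 : δ ^ 2 * (p.A + p.C) = m * (p.A + p.C - 2 * l * (p.A * p.C - p.B ^ 2)) := by
    have h4 : δ ^ 2 * (p.A + p.C) = (T.a ^ 2 + T.c ^ 2) * (p.comp T).C +
        (T.b ^ 2 + T.d ^ 2) * (p.comp T).A - 2 * (T.a * T.b + T.c * T.d) * (p.comp T).B := by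
      rw [hδ]
      unfold Quad.comp
      ring
    rw [h4, eA, eB, eC, hA, hB, hC]
    ring
  have h4 : δ ^ 2 = 1 - l * (p.A + p.C) + l ^ 2 * (p.A * p.C - p.B ^ 2) := by
    have h5 : δ ^ 2 = (T.a ^ 2 + T.c ^ 2) * (T.b ^ 2 + T.d ^ 2) -
        (T.a * T.b + T.c * T.d) ^ 2 := by
      rw [hδ]
      ring
    rw [h5, eA, eB, eC]
    ring
  have hδ2 : 0 < δ ^ 2 := by positivity
  have hm : 0 < m := by
    by_contra hcon
    have h5 : m ^ 3 ≤ 0 := by
      have h6 : 0 ≤ (-m) ^ 3 := pow_nonneg (by linarith only [hcon]) 3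
      have h7 : (-m) ^ 3 = -(m ^ 3) := by ring
      linarith only [h6, h7]
    linarith only [h5, h1, hδ2]
  by_cases hd : p.A * p.C - p.B ^ 2 = 0
  · have htr : p.A + p.C ≠ 0 := by
      intro htr
      apply hp
      have hC' : p.C = -p.A := by linarith only [htr]
      rw [hC'] at hd
      have h5 : p.A ^ 2 + p.B ^ 2 = 0 := by linear_combination -hd
      have h6 : p.A = 0 := by
        have h8 : p.A ^ 2 = 0 := by linarith only [h5, sq_nonneg p.A, sq_nonneg p.B]
        exact pow_eq_zero_iff two_ne_zero |>.1 h8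
      have h7 : p.B = 0 := by
        have h8 : p.B ^ 2 = 0 := by linarith only [h5, sq_nonneg p.A, sq_nonneg p.B]
        exact pow_eq_zero_iff two_ne_zero |>.1 h8
      exact ⟨h6, h7, by rw [hC', h6, neg_zero]⟩
    rw [hd, mul_zero, sub_zero] at h3
    have h5 : δ ^ 2 = m := mul_right_cancel₀ htr h3
    have h6 : m = m ^ 3 := h5.symm.trans h1
    have h7 : m = 1 := by
      have h8 : m * ((m - 1) * (m + 1)) = 0 := by linear_combination -h6
      rcases mul_eq_zero.1 h8 with h9 | h9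
      · exact absurd h9 hm.ne'
      · rcases mul_eq_zero.1 h9 with h10 | h10
        · exact sub_eq_zero.1 h10
        · exfalso
          linarith only [hm, h10]
    rw [h5, h7, hd] at h4
    have h8 : l * (p.A + p.C) = 0 := by linear_combination h4
    exact (mul_eq_zero.1 h8).resolve_right htr
  · have h5 : δ ^ 2 = m ^ 2 := mul_right_cancel₀ hd h2
    have h6 : m = 1 := by
      have h7 : m ^ 2 * (m - 1) = 0 := by linear_combination h5 - h1
      rcases mul_eq_zero.1 h7 with h8 | h8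
      · exact absurd h8 (pow_ne_zero 2 hm.ne')
      · exact sub_eq_zero.1 h8
    rw [h5, h6] at h3
    have h7 : l * (p.A * p.C - p.B ^ 2) = 0 := by linear_combination h3 / 2
    exact (mul_eq_zero.1 h7).resolve_right hd

lemma solve2 {a b c d : ℝ} (h : a * d - b * c ≠ 0) (r s : ℝ) :
    ∃ m n : ℝ, a * m + b * n = r ∧ c * m + d * n = s := by
  refine ⟨(r * d - b * s) / (a * d - b * c), (a * s - r * c) / (a * d - b * c), ?_, ?_⟩
  · rw [mul_div_assoc', mul_div_assoc', ← add_div, div_eq_iff h]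
    ring
  · rw [mul_div_assoc', mul_div_assoc', ← add_div, div_eq_iff h]
    ring

lemma norm_sq (z : ℂ) : ‖z‖ ^ 2 = z.re ^ 2 + z.im ^ 2 := by
  rw [← Complex.normSq_eq_norm_sq, Complex.normSq_apply]
  ring

lemma norm_eq {z z' : ℂ} (h : ‖z‖ = ‖z'‖) : z.re ^ 2 + z.im ^ 2 = z'.re ^ 2 + z'.im ^ 2 := by
  rw [← norm_sq, ← norm_sq, h]

/-- A point is determined by its distances to the vertices of a triangle. -/
lemma point_unique (x : Fin 3 → ℂ) (h : cr (x 1 - x 0) (x 2 - x 0) ≠ 0) (z z' : ℂ)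
    (hz : ∀ k, ‖x k - z‖ = ‖x k - z'‖) : z = z' := by
  have h0 := norm_eq (hz 0)
  have h1 := norm_eq (hz 1)
  have h2 := norm_eq (hz 2)
  unfold cr at h
  simp only [Complex.sub_re, Complex.sub_im] at h h0 h1 h2
  obtain ⟨h3, h4⟩ := cramer h (m := z.re - z'.re) (n := z.im - z'.im)
    (by linear_combination (h0 - h1) / 2) (by linear_combination (h0 - h2) / 2)
  exact Complex.ext (by linarith) (by linarith)

/-- the affine map of two triangles -/
lemma rig_map (x x' : Fin 3 → ℂ) (h : 0 < cr (x 1 - x 0) (x 2 - x 0))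
    (h' : 0 < cr (x' 1 - x' 0) (x' 2 - x' 0)) :
    ∃ T : Aff, 0 < T.a * T.d - T.b * T.c ∧
      (∀ y y' : ℂ, (∀ k, ‖x k - y‖ = ‖x' k - y'‖) → y' = T.ap y) ∧
      (∀ k, (x' k - x' 0).re * T.a + (x' k - x' 0).im * T.c = (x k - x 0).re) ∧
      (∀ k, (x' k - x' 0).re * T.b + (x' k - x' 0).im * T.d = (x k - x 0).im) := by
  have hne : (x' 1 - x' 0).re * (x' 2 - x' 0).im - (x' 1 - x' 0).im * (x' 2 - x' 0).re ≠ 0 := h'.ne'
  obtain ⟨a, c, ha1, ha2⟩ := solve2 hne (x 1 - x 0).re (x 2 - x 0).re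
  obtain ⟨b, d, hb1, hb2⟩ := solve2 hne (x 1 - x 0).im (x 2 - x 0).im
  obtain ⟨e, f, he1, he2⟩ := solve2 hne
    (((x' 1).re ^ 2 + (x' 1).im ^ 2 - (x' 0).re ^ 2 - (x' 0).im ^ 2 - (x 1).re ^ 2 - (x 1).im ^ 2 +
      (x 0).re ^ 2 + (x 0).im ^ 2) / 2)
    (((x' 2).re ^ 2 + (x' 2).im ^ 2 - (x' 0).re ^ 2 - (x' 0).im ^ 2 - (x 2).re ^ 2 - (x 2).im ^ 2 +
      (x 0).re ^ 2 + (x 0).im ^ 2) / 2)
  refine ⟨⟨a, b, c, d, e, f⟩, ?_, ?_, ?_, ?_⟩
  · change 0 < a * d - b * c
    have h3 : cr (x 1 - x 0) (x 2 - x 0) = cr (x' 1 - x' 0) (x' 2 - x' 0) * (a * d - b * c) := by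
      unfold cr
      rw [← ha1, ← ha2, ← hb1, ← hb2]
      ring
    rw [h3] at h
    exact (pos_iff_pos_of_mul_pos h).1 h'
  · intro y y' hy
    have h0 := norm_eq (hy 0)
    have h1 := norm_eq (hy 1)
    have h2 := norm_eq (hy 2)
    simp only [Complex.sub_re, Complex.sub_im] at h0 h1 h2 ha1 ha2 hb1 hb2 he1 he2 hne
    obtain ⟨h3, h4⟩ := cramer hne (m := y'.re - (a * y.re + b * y.im + e))
      (n := y'.im - (c * y.re + d * y.im + f))
      (by linear_combination (h1 - h0) / 2 - y.re * ha1 - y.im * hb1 - he1)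
      (by linear_combination (h2 - h0) / 2 - y.re * ha2 - y.im * hb2 - he2)
    exact Complex.ext (by unfold Aff.ap; linarith) (by unfold Aff.ap; linarith)
  · intro k
    fin_cases k
    · simp
    · exact ha1
    · exact ha2
  · intro k
    fin_cases k
    · simp
    · exact hb1
    · exact hb2

/-- the polynomial `|x - z| ^ 2 - |x' - T z| ^ 2` -/
def Aff.pu (T : Aff) (x x' : ℂ) : Quad :=
  ⟨1 - (T.a ^ 2 + T.c ^ 2), -(T.a * T.b + T.c * T.d), 1 - (T.b ^ 2 + T.d ^ 2),
   -x.re - (T.a * (T.e - x'.re) + T.c * (T.f - x'.im)),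
   -x.im - (T.b * (T.e - x'.re) + T.d * (T.f - x'.im)),
   x.re ^ 2 + x.im ^ 2 - ((T.e - x'.re) ^ 2 + (T.f - x'.im) ^ 2)⟩

lemma pu_ev (T : Aff) (x x' z : ℂ) (h : ‖x - z‖ = ‖x' - T.ap z‖) : (T.pu x x').ev z = 0 := by
  have h0 := norm_eq h
  unfold Aff.ap at h0
  simp only [Complex.sub_re, Complex.sub_im] at h0
  unfold Quad.ev Aff.pu
  linear_combination h0

/-- the congruent case -/
lemma rig_cong (x x' : Fin 3 → ℂ) (h' : 0 < cr (x' 1 - x' 0) (x' 2 - x' 0)) (T : Aff)
    (hT : 0 < T.a * T.d - T.b * T.c)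
    (t1 : ∀ k, (x' k - x' 0).re * T.a + (x' k - x' 0).im * T.c = (x k - x 0).re)
    (t2 : ∀ k, (x' k - x' 0).re * T.b + (x' k - x' 0).im * T.d = (x k - x 0).im)
    (e1 : T.a ^ 2 + T.c ^ 2 = 1) (e2 : T.a * T.b + T.c * T.d = 0) (e3 : T.b ^ 2 + T.d ^ 2 = 1) :
    ∃ u w : ℂ, ‖u‖ = 1 ∧ (∀ k, x' k = u * x k + w) ∧
      ∀ y y' : ℂ, (∀ k, ‖x k - y‖ = ‖x' k - y'‖) → y' = u * y + w := by
  have h1 : (T.a * T.d - T.b * T.c) ^ 2 = 1 := by
    have : (T.a * T.d - T.b * T.c) ^ 2 = (T.a ^ 2 + T.c ^ 2) * (T.b ^ 2 + T.d ^ 2) -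
        (T.a * T.b + T.c * T.d) ^ 2 := by ring
    rw [this, e1, e2, e3]
    ring
  have h2 : T.a * T.d - T.b * T.c = 1 := by
    have h3 : (T.a * T.d - T.b * T.c - 1) * (T.a * T.d - T.b * T.c + 1) = 0 := by
      linear_combination h1
    rcases mul_eq_zero.1 h3 with h4 | h4
    · linarith
    · exfalso
      linarith
  have h3 : (T.a - T.d) ^ 2 + (T.b + T.c) ^ 2 = 0 := by linear_combination e1 + e3 - 2 * h2
  have h4 : T.d = T.a := by nlinarith [sq_nonneg (T.a - T.d), sq_nonneg (T.b + T.c)]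
  have h5 : T.b = -T.c := by nlinarith [sq_nonneg (T.a - T.d), sq_nonneg (T.b + T.c)]
  set u : ℂ := ⟨T.a, T.c⟩ with hu
  have hu1 : ‖u‖ = 1 := by
    have h6 := norm_sq u
    rw [hu] at h6 ⊢
    change _ = T.a ^ 2 + T.c ^ 2 at h6
    rw [e1] at h6
    exact (pow_eq_one_iff_of_nonneg (norm_nonneg _) two_ne_zero).1 h6
  have hx : ∀ k, x' k = u * x k + (x' 0 - u * x 0) := by
    intro k
    have k1 := t1 k
    have k2 := t2 k
    rw [h4, h5] at k2
    simp only [Complex.sub_re, Complex.sub_im] at k1 k2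
    apply Complex.ext
    · simp only [Complex.add_re, Complex.sub_re, Complex.mul_re]
      rw [hu]
      change _ = T.a * (x k).re - T.c * (x k).im + ((x' 0).re - (T.a * (x 0).re - T.c * (x 0).im))
      linear_combination T.a * k1 - T.c * k2 - ((x' k).re - (x' 0).re) * e1
    · simp only [Complex.add_im, Complex.sub_im, Complex.mul_im]
      rw [hu]
      change _ = T.a * (x k).im + T.c * (x k).re + ((x' 0).im - (T.a * (x 0).im + T.c * (x 0).re))
      linear_combination T.c * k1 + T.a * k2 - ((x' k).im - (x' 0).im) * e1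
  refine ⟨u, x' 0 - u * x 0, hu1, hx, ?_⟩
  intro y y' hy
  refine point_unique x' h'.ne' _ _ ?_
  intro k
  rw [← hy k]
  have h6 : x' k - (u * y + (x' 0 - u * x 0)) = u * (x k - y) := by
    rw [hx k]
    ring
  rw [h6, norm_mul, hu1, one_mul]

/-- Rigidity, first form: either the two triangles are congruent and all pairs `(y, y')` belong to
the isometry, or all `y` lie on a conic. -/
theorem rig (x x' : Fin 3 → ℂ) (h : 0 < cr (x 1 - x 0) (x 2 - x 0))
    (h' : 0 < cr (x' 1 - x' 0) (x' 2 - x' 0)) :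
    (∃ u w : ℂ, ‖u‖ = 1 ∧ (∀ k, x' k = u * x k + w) ∧
      ∀ y y' : ℂ, (∀ k, ‖x k - y‖ = ‖x' k - y'‖) → y' = u * y + w) ∨
    (∃ p : Quad, p.nd ∧ ∀ y y' : ℂ, (∀ k, ‖x k - y‖ = ‖x' k - y'‖) → p.ev y = 0) := by
  obtain ⟨T, hT, hT1, t1, t2⟩ := rig_map x x' h h'
  by_cases hnd : (T.pu (x 0) (x' 0)).nd
  · right
    refine ⟨_, hnd, fun y y' hy => ?_⟩
    apply pu_ev
    rw [← hT1 y y' hy]
    exact hy 0
  · left
    unfold Quad.nd at hnd
    push Not at hnd
    obtain ⟨e1, e2, e3⟩ := hnd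
    change 1 - (T.a ^ 2 + T.c ^ 2) = 0 at e1
    change -(T.a * T.b + T.c * T.d) = 0 at e2
    change 1 - (T.b ^ 2 + T.d ^ 2) = 0 at e3
    exact rig_cong x x' h' T hT t1 t2 (by linarith) (by linarith) (by linarith)

/-- Rigidity, second form: if there are five pairs `(y, y')` on one conic, then the two triangles
are congruent and all pairs `(y, y')` belong to the isometry. -/
theorem rig_conic (x x' : Fin 3 → ℂ) (h : 0 < cr (x 1 - x 0) (x 2 - x 0))
    (h' : 0 < cr (x' 1 - x' 0) (x' 2 - x' 0)) (p : Quad) (hp : p.nd) (y y' : Fin 5 → ℂ)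
    (hy : NoCol y) (hpv : ∀ i, p.ev (y i) = 0) (hpv' : ∀ i, p.ev (y' i) = 0)
    (hd : ∀ i k, ‖x k - y i‖ = ‖x' k - y' i‖) :
    ∃ u w : ℂ, ‖u‖ = 1 ∧ (∀ k, x' k = u * x k + w) ∧
      ∀ y y' : ℂ, (∀ k, ‖x k - y‖ = ‖x' k - y'‖) → y' = u * y + w := by
  obtain ⟨T, hT, hT1, t1, t2⟩ := rig_map x x' h h'
  have hy' : ∀ i, y' i = T.ap (y i) := fun i => hT1 _ _ (hd i)
  obtain ⟨l, lA, lB, lC, -⟩ := quad_prop p (T.pu (x 0) (x' 0)) hp y hy hpv (by
    intro i
    apply pu_ev
    rw [← hy' i]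
    exact hd i 0)
  obtain ⟨m, mA, mB, mC, mD, mE, mF⟩ := quad_prop p (p.comp T) hp y hy hpv (by
    intro i
    rw [comp_ev, ← hy' i]
    exact hpv' i)
  have hl := core p T m l hp (quad_det p hp y hy hpv) hT mA mB mC mD mE mF lA lB lC
  change 1 - (T.a ^ 2 + T.c ^ 2) = l * p.A at lA
  change -(T.a * T.b + T.c * T.d) = l * p.B at lB
  change 1 - (T.b ^ 2 + T.d ^ 2) = l * p.C at lC
  rw [hl, zero_mul] at lA lB lC
  exact rig_cong x x' h' T hT t1 t2 (by linarith) (by linarith) (by linarith)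

end Pool.Agent.H82.LD
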